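import Pool.Agent.helper58.FI.SpecC

set_option autoImplicit false

namespace Pool.Agent.FI

open Pool.Agent.helper58.DC Pool.Agent.DI Pool.Agent.GR Pool.Agent.OB Pool.Agent.DR

theorem FFF_nch {G : Type} [Group G] (p : ℕ) : NCh p (⊤ : Subgroup G) ⊥ {⊥} := by
  refine ⟨⟨?_, ?_, ?_, ?_, ?_⟩, ?_⟩
  · rw [Finset.coe_singleton]
    exact Set.subsingleton_singleton.isChain
  · exact Finset.mem_singleton_self _
  · intro Q _
    exact bot_le
  · intro Q _
    exact le_top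
  · intro Q hQ
    rw [Finset.mem_singleton.1 hQ]
    exact IsPGroup.of_bot
  · intro Q _ R hR _
    rw [Finset.mem_singleton.1 hR]
    exact bot_le

theorem FFF_nrm {G : Type} [Group G] : nrm ({⊥} : Finset (Subgroup G)) = ⊤ := by
  rw [eq_top_iff]
  intro g _
  unfold nrm
  simp only [Finset.mem_singleton, Subgroup.mem_iInf]
  rintro P rfl
  rw [Subgroup.mem_normalizer_iff]
  intro h
  simp [Subgroup.mem_bot]

theorem FFF_defect {G : Type} [Group G] {p : ℕ} {H : Subgroup G} {ψ : G → ℂ} {d e : ℤ}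
    (h : Defect p H ψ d) (h' : Defect p H ψ e) : d = e := by
  obtain ⟨n, hn, rfl⟩ := h
  obtain ⟨m, hm, rfl⟩ := h'
  have : n = m := by
    have h1 : (n : ℂ) = m := by rw [← hn, ← hm]
    exact_mod_cast h1
  rw [this]

theorem FFF (hFT0 : FT0_stmt) (hFFS : FFS_stmt) (hFNC : FNC_stmt) (hFRA : FRA_stmt) : FFF_stmt := by
  intro p M hS G _ _ D x θ χ hL hop a ha d
  have hpf : Fact p.Prime := ⟨hS.pr⟩
  have h0 := hFT0 G p M hop χ hL.lo.rt.chi d
  have hset : {C : Finset (Subgroup G) | NCh p ⊤ ⊥ C} =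
      insert {⊥} {C : Finset (Subgroup G) | NCh p ⊤ ⊥ C ∧ C ≠ {⊥}} := by
    ext C
    simp only [Set.mem_insert_iff, Set.mem_ofPred_eq]
    constructor
    · intro h
      by_cases e : C = {⊥}
      · exact Or.inl e
      · exact Or.inr ⟨h, e⟩
    · rintro (rfl | h)
      · exact FFF_nch p
      · exact h.1
  have hnm : ({⊥} : Finset (Subgroup G)) ∉ {C : Finset (Subgroup G) | NCh p ⊤ ⊥ C ∧ C ≠ {⊥}} :=
    fun h => h.2 rfl
  rw [hset, finsum_mem_insert _ hnm (Set.toFinite _), FFF_nrm, Finset.card_singleton] at h0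
  -- the orders
  obtain ⟨⟨hcT, -, -, -⟩, -, -⟩ := hFRA p M hS G D x θ χ hL.lo ⊥ bot_le
  have hT : (Nat.card (TT M D θ) : ℤ) = (Nat.card (cz D) : ℤ) * ((cz D).relIndex (TT M D θ) : ℤ) := by
    have h1 := Subgroup.relIndex_mul_relIndex ⊥ (cz D) (TT M D θ) bot_le hcT
    rw [Subgroup.relIndex_bot_left, Subgroup.relIndex_bot_left] at h1
    rw [← h1]
    push_cast
    ring
  have hG0 : (Nat.card G : ℤ) ≠ 0 := by exact_mod_cast Nat.card_pos.ne'
  have hc0 : (Nat.card (cz D) : ℤ) ≠ 0 := by exact_mod_cast Nat.card_pos.ne'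
  have hGt : (Nat.card (⊤ : Subgroup G) : ℤ) = Nat.card G := by
    rw [Subgroup.card_top]
  rw [hGt] at h0
  have key : ∀ S' : ℤ, (Nat.card (TT M D θ) : ℤ) *
      (∑ᶠ C ∈ {C : Finset (Subgroup G) | NCh p ⊤ ⊥ C ∧ C ≠ {⊥}},
        (-1) ^ (C.card + 1) * ((Nat.card (nrm C) : ℤ) * (BlkD p M χ (nrm C) d).ncard)) =
        - ((Nat.card G : ℤ) * Nat.card (cz D) * S') →
      ((cz D).relIndex (TT M D θ) : ℤ) * altSum (trivE G) p M χ d ⊤ =
      ((cz D).relIndex (TT M D θ) : ℤ) * (BlkD p M χ ⊤ d).ncard - S' := by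
    intro S' hS'
    have h1 : (Nat.card (TT M D θ) : ℤ) * ((Nat.card G : ℤ) * altSum (trivE G) p M χ d ⊤) =
        (Nat.card (TT M D θ) : ℤ) * ((Nat.card G : ℤ) * (BlkD p M χ ⊤ d).ncard) -
          ((Nat.card G : ℤ) * Nat.card (cz D) * S') := by
      rw [h0, mul_add, hS']
      ring
    rw [hT] at h1
    have h2 : ((Nat.card (cz D) : ℤ) * (Nat.card G : ℤ)) *
        (((cz D).relIndex (TT M D θ) : ℤ) * altSum (trivE G) p M χ d ⊤) =
        ((Nat.card (cz D) : ℤ) * (Nat.card G : ℤ)) *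
        (((cz D).relIndex (TT M D θ) : ℤ) * (BlkD p M χ ⊤ d).ncard - S') := by
      linear_combination h1
    exact mul_left_cancel₀ (mul_ne_zero hc0 hG0) h2
  by_cases hda : d = (a : ℤ)
  · rw [if_pos hda]
    apply key
    rw [← hFFS p M hS G D x θ χ hL]
    congr 1
    refine finsum_mem_congr rfl fun C hC => ?_
    have h1 : BlkD p M χ (nrm C) d = Blk M χ (nrm C) := by
      ext φ
      constructor
      · intro h
        exact h.1
      · intro h
        refine ⟨h, ?_⟩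
        rw [hda]
        exact (hFNC p M hS G D x θ χ hL C hC.1 hC.2).2 φ h a ha
    rw [h1]
  · rw [if_neg hda]
    apply key
    rw [mul_zero, neg_zero]
    have h1 : (∑ᶠ C ∈ {C : Finset (Subgroup G) | NCh p ⊤ ⊥ C ∧ C ≠ {⊥}},
        (-1 : ℤ) ^ (C.card + 1) * ((Nat.card (nrm C) : ℤ) * (BlkD p M χ (nrm C) d).ncard)) = 0 := by
      refine finsum_mem_eq_zero_of_forall_eq_zero fun C hC => ?_
      have h2 : BlkD p M χ (nrm C) d = ∅ := by
        rw [Set.eq_empty_iff_forall_notMem]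
        rintro φ ⟨h3, h4⟩
        exact hda (FFF_defect h4 ((hFNC p M hS G D x θ χ hL C hC.1 hC.2).2 φ h3 a ha))
      rw [h2, Set.ncard_empty]
      simp
    rw [h1, mul_zero]

end Pool.Agent.FI
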