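import Pool.Agent.helper22.FI.SpecA

set_option autoImplicit false

namespace Pool.Agent.FI

open Pool.Agent.helper58.DC Pool.Agent.DI Pool.Agent.GR Pool.Agent.OB

theorem DGL (h1 : DGW_stmt) (h2 : MLT_stmt) (h3 : PWN_stmt) (h4 : CVF_stmt) (h5 : CCI_stmt) (h6 : C3_stmt) (h7 : B2_stmt) : DGL_stmt := by
  classical
  intro p M hS G _ _ L ψ hψ D x hD
  by_contra hcon
  push Not at hcon
  have hDL : D ≤ L := le_trans hD.le inf_le_left
  obtain ⟨m1, m2⟩ := h2 p M hS G L D hD.pg hDL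
  obtain ⟨hassoc, hbil, hsm, hone, hconj, hsupp, hcomm, hcf, hcfs, hdl, hint, hinm⟩ := h4 G
  obtain ⟨c1, -, -, -⟩ := h6 G
  obtain ⟨hfin, -⟩ := h7 G (L ⊓ cz D)
  obtain ⟨x1, x2, x3⟩ := h5 G L ψ hψ
  have x3' := x3 p M hS
  -- good functions
  let A : (G → ℂ) → Prop := fun u => CF L u ∧ ∀ x, IntAt M (u x)
  have hAH : ∀ u, A u → ∀ h ∈ L ⊓ cz D, ∀ x, u (h * x * h⁻¹) = u x := fun u hu h hh x => hu.1.1 h hh.1 x
  have hACv : ∀ u v, A u → A v → A (cv u v) := fun u v hu hv =>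
    ⟨(hcf L u v hu.1 hv.1).1, hint p M hS u v hu.2 hv.2⟩
  have hdlI : ∀ x, IntAt M ((dl : G → ℂ) x) := fun x => by
    unfold dl
    split_ifs
    · exact IntAt.one hS
    · exact IntAt.zero hS
  have hAdl : A dl := ⟨hdl L, hdlI⟩
  have hmul : ∀ θ ∈ IrrOn (L ⊓ cz D), ∀ u v, A u → A v →
      InM M (cc θ (cv u v) - cc θ u * cc θ v) := by
    intro θ hθ u v hu hv
    exact ((m1 u v hu.1 hv.1 hu.2 hv.2).2.2 θ hθ).2
  -- separating functions
  have hsep : ∀ θ ∈ IrrOn (L ⊓ cz D), ∃ g, A g ∧ cc θ g = 0 ∧ ¬ InM M (cc ψ g) := by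
    intro θ hθ
    obtain ⟨y1, -, -⟩ := h5 G (L ⊓ cz D) θ hθ
    have e0 := hcon θ hθ
    unfold SB at e0
    push Not at e0
    obtain ⟨z, hz, hzi, hzn⟩ := e0
    have i1 : IsIntegral ℤ (cc θ z) := c1 (L ⊓ cz D) θ hθ z (fun l hl x => hz.1 l hl.1 x) hzi
    have i2 : IsIntegral ℤ (cc ψ z) := c1 L ψ hψ z hz.1 hzi
    have e2 : ¬ InM M (cc θ z - cc ψ z) := fun e3 => hzn (InM.mcong hS i1 i2 e3)
    refine ⟨z - cc θ z • dl, ⟨(hcf L _ _ hz (hcfs L _ _ (hdl L))).2.2, ?_⟩, ?_, ?_⟩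
    · intro a
      rw [Pi.sub_apply, Pi.smul_apply, smul_eq_mul]
      exact IntAt.sub hS (IntAt.of_isIntegral hS (hzi a))
        (IntAt.mul hS (IntAt.of_isIntegral hS i1) (hdlI a))
    · rw [(y1 0 _ _).2.1, (y1 (cc θ z) dl dl).2.2.1, (y1 0 dl dl).2.2.2]
      ring
    · rw [(x1 0 _ _).2.1, (x1 (cc θ z) dl dl).2.2.1, (x1 0 dl dl).2.2.2]
      intro e3
      apply e2
      have e4 := InM.neg e3
      have e5 : -(cc ψ z - cc θ z * 1) = cc θ z - cc ψ z := by ring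
      rw [e5] at e4
      exact e4
  have hT : ∀ T : Finset (G → ℂ), (∀ θ ∈ T, θ ∈ IrrOn (L ⊓ cz D)) →
      ∃ g, A g ∧ ¬ InM M (cc ψ g) ∧ ∀ θ ∈ T, InM M (cc θ g) := by
    intro T
    induction T using Finset.induction_on with
    | empty =>
      intro _
      refine ⟨dl, hAdl, ?_, by simp⟩
      rw [(x1 0 dl dl).2.2.2]
      exact InM.not_one hS
    | insert θ T hθ ih =>
      intro hT
      obtain ⟨g, hg1, hg2, hg3⟩ := ih (fun θ' h => hT θ' (Finset.mem_insert_of_mem h))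
      have hθL := hT θ (Finset.mem_insert_self _ _)
      obtain ⟨f, hf1, hf2, hf3⟩ := hsep θ hθL
      refine ⟨cv g f, hACv _ _ hg1 hf1, ?_, ?_⟩
      · rw [x2 g f hg1.1 hf1.1]
        intro h
        rcases InM.or hS ((x3' g hg1.1.1).1 hg1.2) ((x3' f hf1.1.1).1 hf1.2) h with h | h
        · exact hg2 h
        · exact hf3 h
      · intro θ' hθ'
        have hθ'L := hT θ' hθ'
        have e1 := hmul θ' hθ'L g f hg1 hf1
        obtain ⟨-, -, y3⟩ := h5 G (L ⊓ cz D) θ' hθ'L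
        have if' : IntAt M (cc θ' f) := ((y3 p M hS) f (hAH f hf1)).1 hf1.2
        have e2 : InM M (cc θ' g * cc θ' f) := by
          rcases Finset.mem_insert.mp hθ' with h | h
          · rw [h, hf2, mul_zero]
            exact InM.zero hS
          · exact InM.mul_right hS (hg3 θ' h) if'
        have e3 := InM.add hS e1 e2
        rw [sub_add_cancel] at e3
        exact e3
  obtain ⟨g, hg1, hg2, hg3⟩ := hT hfin.toFinset (fun θ h => (Set.Finite.mem_toFinset hfin).mp h)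
  obtain ⟨hcg, -, hcθ⟩ := m1 g g hg1.1 hg1.1 hg1.2 hg1.2
  have hgr : ∀ x, IntAt M (rsH (L ⊓ cz D) g x) := by
    intro x
    unfold rsH
    split_ifs
    · exact hg1.2 x
    · exact IntAt.zero hS
  obtain ⟨n, hn⟩ := h3 p M hS G (L ⊓ cz D) (rsH (L ⊓ cz D) g) hcg hgr (fun θ hθ => by
    rw [(hcθ θ hθ).1]
    exact hg3 θ ((Set.Finite.mem_toFinset hfin).mpr hθ))
  -- powers
  have hpA : ∀ m, A (cvp g m) := by
    intro m
    induction m with
    | zero => exact hAdl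
    | succ m ih => exact hACv _ _ ih hg1
  have hw : ∀ y ∈ L ⊓ cz D, InM M (cvp g n y) := by
    intro y hy
    have e1 := m2 g hg1.1 hg1.2 n y
    have e2 := InM.add hS e1 (hn y)
    rw [sub_add_cancel] at e2
    have e3 : rsH (L ⊓ cz D) (cvp g n) y = cvp g n y := by
      unfold rsH
      rw [if_pos hy]
    rw [e3] at e2
    exact e2
  have hcc := h1 p M hS G L ψ hψ D x hD (cvp g n) (hpA n).1 (hpA n).2 hw
  have hpow : ∀ m, cc ψ (cvp g m) = cc ψ g ^ m := by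
    intro m
    induction m with
    | zero =>
      show cc ψ dl = _
      rw [(x1 0 dl dl).2.2.2, pow_zero]
    | succ m ih =>
      show cc ψ (cv (cvp g m) g) = _
      rw [x2 _ _ (hpA m).1 hg1.1, ih, pow_succ]
  rw [hpow n] at hcc
  exact hg2 (InM.of_pow hS ((x3' g hg1.1.1).1 hg1.2) hcc)

end Pool.Agent.FI
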