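import Pool.Agent.helper95.FI.SpecA

/-!
# Project fi (MP_ad8ced_nt), row SIZ: sizes in the fundamental domain
-/

set_option autoImplicit false

open Finset

namespace Pool.Agent.FI

private theorem SIZ_sq8 (a : ℤ) (h : a % 2 = 1) : a ^ 2 % 8 = 1 := by
  obtain ⟨c, hc⟩ : ∃ c, a = 2 * c + 1 := ⟨a / 2, by omega⟩
  obtain ⟨d, hd⟩ : ∃ d, c * (c + 1) = 2 * d := (Int.even_mul_succ_self c).two_dvd
  have : a ^ 2 = 8 * d + 1 := by
    rw [hc]
    linear_combination 4 * hd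
  omega

private theorem SIZ_abs (x u : ℤ) (h : x ^ 2 ≤ u) : -u ≤ x ∧ x ≤ u := by
  have h1 : |x| ≤ x ^ 2 := by
    rw [← sq_abs]
    rcases eq_or_lt_of_le (abs_nonneg x) with h0 | h0
    · rw [← h0]
      norm_num
    · nlinarith
  exact abs_le.mp (h1.trans h)

theorem SIZ : SIZ_stmt := by
  rintro ⟨a, l⟩ ⟨hodd, hcase⟩
  simp only at hodd hcase
  have hsq := SIZ_sq8 a hodd
  have hFd : Fd (a, l) := ⟨hodd, hcase⟩
  have key : a ^ 2 ≤ 2 * (nn (a, l) : ℤ) ∧ l ^ 2 ≤ (nn (a, l) : ℤ) ∧ 0 < nn (a, l) ∧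
      (N8 (a, l) = nn (a, l) ∧ nn (a, l) % 8 = 1 ∨ N8 (a, l) = -(nn (a, l) : ℤ) ∧ nn (a, l) % 8 = 7) := by
    rcases hcase with h | h
    · have h1 : 16 * l ^ 2 ≤ a ^ 2 := by
        have h2 : (4 * |l|) ^ 2 ≤ a ^ 2 :=
          pow_le_pow_left₀ (by positivity) h.le 2
        have h3 : (4 * |l|) ^ 2 = 16 * l ^ 2 := by
          rw [mul_pow, sq_abs]
          norm_num
        linarith
      have ha : 0 < a := lt_of_le_of_lt (by positivity) h
      have ha2 : 0 < a ^ 2 := by positivity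
      have hpos : 0 < N8 (a, l) := by
        simp only [N8]
        linarith [sq_nonneg l]
      have hnn : (nn (a, l) : ℤ) = N8 (a, l) := by
        unfold nn
        exact Int.natAbs_of_nonneg hpos.le
      have hN : N8 (a, l) = a ^ 2 - 8 * l ^ 2 := rfl
      have hl := sq_nonneg l
      refine ⟨by rw [hnn, hN]; linarith, by rw [hnn, hN]; linarith, by omega, Or.inl ⟨hnn.symm, by omega⟩⟩
    · have h1 : a ^ 2 ≤ 4 * l ^ 2 := by
        have h2 : |a| ^ 2 ≤ (2 * l) ^ 2 := pow_le_pow_left₀ (abs_nonneg a) h.le 2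
        rw [sq_abs] at h2
        linarith
      have hl0 : 0 < l := by
        have := abs_nonneg a
        linarith
      have hl : 0 < l ^ 2 := by positivity
      have hneg : N8 (a, l) < 0 := by
        simp only [N8]
        linarith
      have hnn : (nn (a, l) : ℤ) = -N8 (a, l) := by
        unfold nn
        omega
      have hN : N8 (a, l) = a ^ 2 - 8 * l ^ 2 := rfl
      refine ⟨by rw [hnn, hN]; linarith, by rw [hnn, hN]; linarith, by omega, Or.inr ⟨by omega, by omega⟩⟩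
  obtain ⟨k1, k2, k3, k4⟩ := key
  refine ⟨k1, k2, k3, ?_, k4⟩
  have e1 := SIZ_abs a _ k1
  have e2 := SIZ_abs l _ k2
  unfold FF
  simp only [mem_filter, mem_product, mem_Icc]
  refine ⟨⟨⟨?_, ?_⟩, ?_, ?_⟩, hFd, le_rfl⟩
  · linarith [e1.1]
  · linarith [e1.2]
  · have : (0 : ℤ) ≤ (nn (a, l) : ℤ) := Int.natCast_nonneg _
    linarith [e2.1]
  · have : (0 : ℤ) ≤ (nn (a, l) : ℤ) := Int.natCast_nonneg _
    linarith [e2.2]

end Pool.Agent.FI
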