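import Pool.Agent.helper95.FI.SpecA

/-!
# Project fi (MP_ad8ced_nt), row DVE: existence of the divisor of norm `m`
-/

set_option autoImplicit false

open Finset

namespace Pool.Agent.FI

private theorem DVE_N8_mul (z w : ℤ × ℤ) : N8 (mul8 z w) = N8 z * N8 w := by
  simp only [N8, mul8]
  ring

private theorem DVE_odd (m : ℕ) (z : ℤ × ℤ) (hm : Odd m) (hz : nn z = m) : z.1 % 2 = 1 := by
  have h1 : (N8 z).natAbs = m := hz
  have h2 : Odd (N8 z) := by
    rw [← Int.natAbs_odd, h1]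
    exact hm
  unfold N8 at h2
  have h3 : Odd (z.1 ^ 2) := by
    rcases h2 with ⟨c, hc⟩
    exact ⟨c + 4 * z.2 ^ 2, by linarith⟩
  have h4 : Odd z.1 := by
    by_contra h5
    rw [Int.not_odd_iff_even] at h5
    have h6 : Even (z.1 ^ 2) := by
      rw [pow_two]
      exact h5.mul_right _
    exact (Int.not_even_iff_odd.mpr h3) h6
  exact Int.odd_iff.mp h4

theorem DVE (hTHU : THU_stmt) (hPRI : PRI_stmt) (hFDE : FDE_stmt) : DVE_stmt := by
  have _ := hPRI
  intro ζ m k hodd hcop hn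
  obtain ⟨a, l⟩ := ζ
  simp only at hodd hcop
  have hN : (N8 (a, l)).natAbs = m * k := hn
  have hN' : N8 (a, l) = a ^ 2 - 8 * l ^ 2 := rfl
  -- `N = m k'`
  have hmd : (m : ℤ) ∣ a ^ 2 - 8 * l ^ 2 := by
    rw [← hN', ← Int.natAbs_dvd_natAbs, Int.natAbs_natCast, hN]
    exact Dvd.intro _ rfl
  obtain ⟨k', hk'⟩ := hmd
  have haodd : Odd a := Int.odd_iff.mpr hodd
  have hNodd : Odd (a ^ 2 - 8 * l ^ 2) := by
    have h1 : Odd (a ^ 2) := haodd.pow
    have h2 : Even (8 * l ^ 2) := ⟨4 * l ^ 2, by ring⟩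
    exact h1.sub_even h2
  have hmodd : Odd m := by
    have h1 : Odd ((m : ℤ) * k') := by
      rw [← hk']
      exact hNodd
    exact_mod_cast (Int.odd_mul.mp h1).1
  have hlm : IsCoprime l (m : ℤ) := by
    have h1 : IsCoprime (a ^ 2) l := hcop.pow_left
    have h2 : a ^ 2 = (m : ℤ) * k' + l * (8 * l) := by linarith
    rw [h2] at h1
    have h3 : IsCoprime ((m : ℤ) * k') l := IsCoprime.of_add_mul_left_left h1
    exact (IsCoprime.of_mul_left_left h3).symm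
  obtain ⟨x, y, hxy⟩ := hlm
  have hlm : IsCoprime l (m : ℤ) := ⟨x, y, hxy⟩
  have hν1 : a = a * x * l + (m : ℤ) * (a * y) := by
    linear_combination (-a) * hxy
  have hν2 : (m : ℤ) ∣ (a * x) ^ 2 - 8 := by
    have h1 : (m : ℤ) ∣ l ^ 2 * ((a * x) ^ 2 - 8) := by
      refine ⟨k' - 2 * a * (a * y) + (m : ℤ) * (a * y) ^ 2, ?_⟩
      have h3 : a * x * l = a - (m : ℤ) * (a * y) := by linarith
      calc l ^ 2 * ((a * x) ^ 2 - 8) = (a * x * l) ^ 2 - 8 * l ^ 2 := by ring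
        _ = (a - (m : ℤ) * (a * y)) ^ 2 - 8 * l ^ 2 := by rw [h3]
        _ = (a ^ 2 - 8 * l ^ 2) - (m : ℤ) * (2 * a * (a * y)) + (m : ℤ) * ((m : ℤ) * (a * y) ^ 2) := by
            ring
        _ = (m : ℤ) * (k' - 2 * a * (a * y) + (m : ℤ) * (a * y) ^ 2) := by rw [hk']; ring
    have h2 : IsCoprime (m : ℤ) (l ^ 2) := hlm.symm.pow_right
    exact h2.dvd_of_dvd_mul_left h1
  obtain ⟨⟨r, s⟩, hz, hzν⟩ := hTHU m (a * x) hmodd hν2
  simp only at hzν
  obtain ⟨r', hr'⟩ := hzν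
  obtain ⟨q, hq⟩ := hν2
  have hzodd := DVE_odd m (r, s) hmodd hz
  obtain ⟨u, hu, hFd⟩ := hFDE (r, s) hzodd
  -- the two coordinates of `ζ z̄`
  have hr : r = a * x * s + (m : ℤ) * r' := by linarith
  have hd1 : (m : ℤ) ∣ a * r - 8 * l * s := by
    refine ⟨l * s * q + a * r' + a * y * (a * x) * s, ?_⟩
    have e1 : a * r - 8 * l * s = a * (a * x * s + (m : ℤ) * r') - 8 * l * s := by rw [← hr]
    have e2 : a * (a * x * s) = (a * x * l + (m : ℤ) * (a * y)) * (a * x * s) := by rw [← hν1]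
    rw [e1]
    linear_combination e2 + l * s * hq
  have hd2 : (m : ℤ) ∣ l * r - a * s := by
    refine ⟨l * r' - a * y * s, ?_⟩
    linear_combination l * hr - s * hν1
  have hNz : (N8 (r, s)).natAbs = m := hz
  have hNz' : N8 (r, s) = r ^ 2 - 8 * s ^ 2 := rfl
  have hNdvd : N8 (r, s) ∣ (m : ℤ) := by
    rw [← Int.natAbs_dvd_natAbs, Int.natAbs_natCast, hNz]
  have hm0 : (m : ℤ) ≠ 0 := by
    rcases hmodd with ⟨c, hc⟩
    have : m ≠ 0 := by omega
    exact_mod_cast this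
  have hN0 : N8 (r, s) ≠ 0 := by
    intro h
    rw [h] at hNdvd
    exact hm0 (zero_dvd_iff.mp hNdvd)
  obtain ⟨w1, hw1⟩ := hNdvd.trans hd1
  obtain ⟨w2, hw2⟩ := hNdvd.trans hd2
  rw [hNz'] at hw1 hw2 hN0
  have g1 : r * w1 + 8 * s * w2 = a := by
    apply mul_left_cancel₀ hN0
    linear_combination (-r) * hw1 - 8 * s * hw2
  have g2 : r * w2 + s * w1 = l := by
    apply mul_left_cancel₀ hN0
    linear_combination (-r) * hw2 - s * hw1
  refine ⟨mul8 u (r, s), mul8 (cj u) (w1, w2), hFd, ?_, ?_⟩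
  · change (N8 (mul8 u (r, s))).natAbs = m
    rw [DVE_N8_mul, hu, one_mul, hNz]
  · obtain ⟨p, v⟩ := u
    have hu' : p ^ 2 - 8 * v ^ 2 = 1 := hu
    simp only [mul8, cj]
    refine Prod.ext ?_ ?_
    · simp only
      rw [← g1]
      linear_combination (r * w1 + 8 * s * w2) * hu'
    · simp only
      rw [← g2]
      linear_combination (r * w2 + s * w1) * hu'

end Pool.Agent.FI
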